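import Pool.Agent.X9.DV.Main

/-!
# Primes `p ≡ 73 (mod 3640)`

For these primes `p ≡ 1 (mod 4)` and `7`, `10`, `13` are not squares modulo `p`.
-/

namespace Pool.Agent.X9.DV

open Multiset

theorem ns7 : ¬ IsSquare ((3 : ℕ) : ZMod 7) := by decide
theorem ns5 : ¬ IsSquare ((3 : ℕ) : ZMod 5) := by decide
theorem ns13 : ¬ IsSquare ((8 : ℕ) : ZMod 13) := by decide

theorem nonsq {p : ℕ} [Fact p.Prime] (h : p % 3640 = 73) :
    ¬ IsSquare (7 : ZMod p) ∧ ¬ IsSquare (10 : ZMod p) ∧ ¬ IsSquare (13 : ZMod p) := by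
  have hp4 : p % 4 = 1 := by omega
  have hp8 : p % 8 = 1 := by omega
  have : Fact (Nat.Prime 7) := ⟨by norm_num⟩
  have : Fact (Nat.Prime 5) := ⟨by norm_num⟩
  have : Fact (Nat.Prime 13) := ⟨by norm_num⟩
  have h7 : ¬ IsSquare (((7 : ℕ) : ZMod p)) := by
    rw [ZMod.exists_sq_eq_prime_iff_of_mod_four_eq_one (p := p) (q := 7) hp4 (by norm_num)]
    have e : (p : ZMod 7) = ((3 : ℕ) : ZMod 7) := by
      rw [ZMod.natCast_eq_natCast_iff]; change p % 7 = 3 % 7; omega
    rw [e]; exact ns7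
  have h5 : ¬ IsSquare (((5 : ℕ) : ZMod p)) := by
    rw [ZMod.exists_sq_eq_prime_iff_of_mod_four_eq_one (p := p) (q := 5) hp4 (by norm_num)]
    have e : (p : ZMod 5) = ((3 : ℕ) : ZMod 5) := by
      rw [ZMod.natCast_eq_natCast_iff]; change p % 5 = 3 % 5; omega
    rw [e]; exact ns5
  have h13 : ¬ IsSquare (((13 : ℕ) : ZMod p)) := by
    rw [ZMod.exists_sq_eq_prime_iff_of_mod_four_eq_one (p := p) (q := 13) hp4 (by norm_num)]
    have e : (p : ZMod 13) = ((8 : ℕ) : ZMod 13) := by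
      rw [ZMod.natCast_eq_natCast_iff]; change p % 13 = 8 % 13; omega
    rw [e]; exact ns13
  have hp2 : p ≠ 2 := by omega
  have h2 : IsSquare (2 : ZMod p) := (ZMod.exists_sq_eq_two_iff hp2).2 (Or.inl hp8)
  refine ⟨by simpa using h7, ?_, by simpa using h13⟩
  intro h10
  apply h5
  obtain ⟨z, hz⟩ := h2
  obtain ⟨y, hy⟩ := h10
  have h20 : (2 : ZMod p) ≠ 0 := by
    intro h0
    have : ((2 : ℕ) : ZMod p) = 0 := by simpa using h0
    rw [ZMod.natCast_eq_zero_iff] at this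
    have := Nat.le_of_dvd (by norm_num) this
    omega
  have hz0 : z ≠ 0 := by
    rintro rfl
    exact h20 (by simpa using hz)
  refine ⟨y / z, ?_⟩
  field_simp
  have e : (5 : ZMod p) * (z * z) = y * y := by
    rw [← hz, ← hy]; norm_num
  push_cast
  linear_combination e

/-- `D p ≥ p + 2` for every prime `p ≡ 73 (mod 3640)`. -/
theorem D_ge {p : ℕ} (hp : p.Prime) (h : p % 3640 = 73) : p + 2 ≤ D p := by
  have : Fact p.Prime := ⟨hp⟩
  obtain ⟨h7, h10, h13⟩ := nonsq (p := p) h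
  have h20 : (2 : ZMod p) ≠ 0 := by
    intro h0
    have : ((2 : ℕ) : ZMod p) = 0 := by simpa using h0
    rw [ZMod.natCast_eq_zero_iff] at this
    have := Nat.le_of_dvd (by norm_num) this
    omega
  have hx : 2 * (3 / 2 : ZMod p) = 3 := by field_simp
  have hf := key (p := p) (by omega) (3 / 2) hx h7 h10 h13
  have := lt_D hp.pos hf
  rw [card_add, card_replicate, card_replicate] at this
  omega

end Pool.Agent.X9.DV
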