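import Mathlib

/-!
# The degree-2 Davenport constant of `Z_p`

`2 e_2(T) = (∑ T)² - ∑ T²`, and the sequence of `p - 3` ones and four elements `x` with `2x = 3` has
no 2-zero subsequence if `7`, `10`, `13` are not squares modulo `p`.
-/

namespace Pool.Agent.X9.DV

open Multiset

/-- A sequence (finite multiset) over `ZMod n` is 2-zero free if no subsequence with at least two
terms has second elementary symmetric value zero. -/
def Free (n : ℕ) (S : Multiset (ZMod n)) : Prop :=
  ∀ T ≤ S, 2 ≤ T.card → T.esymm 2 ≠ 0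

/-- The degree-2 Davenport constant: the least positive `ℓ` such that every sequence of length `ℓ`
over `ZMod n` has a subsequence with at least two terms and `e_2 = 0`. -/
noncomputable def D (n : ℕ) : ℕ :=
  sInf {ℓ : ℕ | 0 < ℓ ∧ ∀ S : Multiset (ZMod n), S.card = ℓ → ∃ T ≤ S, 2 ≤ T.card ∧ T.esymm 2 = 0}

theorem esymm_cons {R : Type*} [CommRing R] (a : R) (s : Multiset R) :
    (a ::ₘ s).esymm 2 = s.esymm 2 + a * s.sum := by
  unfold Multiset.esymm
  rw [powersetCard_cons, Multiset.map_add, Multiset.sum_add, powersetCard_one]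
  congr 1
  rw [Multiset.map_map, Multiset.map_map]
  simp only [Function.comp_def, prod_cons, prod_singleton]
  rw [Multiset.sum_map_mul_left, Multiset.map_id']

theorem two_esymm {R : Type*} [CommRing R] (s : Multiset R) :
    2 * s.esymm 2 = s.sum ^ 2 - (s.map (fun a => a ^ 2)).sum := by
  induction s using Multiset.induction_on with
  | empty =>
    have h0 : powersetCard 2 (0 : Multiset R) = 0 := rfl
    simp [Multiset.esymm, h0]
  | cons a s ih =>
    rw [esymm_cons, mul_add, ih, sum_cons, map_cons, sum_cons]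
    ring

theorem sub_of_le {α : Type*} [DecidableEq α] {m r : ℕ} {a b : α} {T : Multiset α}
    (h : T ≤ replicate m a + replicate r b) :
    ∃ i ≤ m, ∃ j ≤ r, T = replicate i a + replicate j b := by
  have h1 : T ∩ replicate m a ≤ replicate m a := Multiset.inter_le_right
  have h2 : T - replicate m a ≤ replicate r b := by
    rw [tsub_le_iff_left]; exact h
  obtain ⟨i, hi, e1⟩ := Multiset.le_replicate_iff.1 h1
  obtain ⟨j, hj, e2⟩ := Multiset.le_replicate_iff.1 h2
  refine ⟨i, hi, j, hj, ?_⟩
  rw [← e1, ← e2, add_comm, Multiset.sub_add_inter]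

theorem key {p : ℕ} [Fact p.Prime] (hp : 7 ≤ p) (x : ZMod p) (hx : 2 * x = 3)
    (h7 : ¬ IsSquare (7 : ZMod p)) (h10 : ¬ IsSquare (10 : ZMod p))
    (h13 : ¬ IsSquare (13 : ZMod p)) :
    Free p (replicate (p - 3) 1 + replicate 4 x) := by
  classical
  intro T hT hcard h0
  obtain ⟨i, hi, j, hj, rfl⟩ := sub_of_le hT
  simp only [card_add, card_replicate] at hcard
  have h := two_esymm (replicate i (1 : ZMod p) + replicate j x)
  rw [h0, mul_zero, sum_add, Multiset.map_add, sum_add, map_replicate, map_replicate,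
    sum_replicate, sum_replicate, sum_replicate, sum_replicate] at h
  simp only [nsmul_eq_mul, one_pow, mul_one] at h
  have hsq : (2 * (i : ZMod p) + 3 * j - 1) ^ 2 = 3 * j + 1 := by
    linear_combination (-4) * h + (4 * (i : ZMod p) * j + 2 * (j : ZMod p) ^ 2 * x
      + 3 * (j : ZMod p) ^ 2 - 2 * (j : ZMod p) * x - 3 * j) * (-1) * hx
  have hcast : ∀ n : ℕ, 0 < n → n < p → (n : ZMod p) ≠ 0 := by
    intro n hn hnp hz
    rw [ZMod.natCast_eq_zero_iff] at hz
    exact absurd (Nat.le_of_dvd hn hz) (by omega)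
  have h4 : ((4 : ℕ) : ZMod p) ≠ 0 := hcast 4 (by norm_num) (by omega)
  push_cast at h4
  rcases (by omega : j = 0 ∨ j = 1 ∨ j = 2 ∨ j = 3 ∨ j = 4) with rfl | rfl | rfl | rfl | rfl
  · have e : (4 : ZMod p) * ((i : ZMod p) * ((i : ZMod p) - 1)) = 0 := by
      push_cast at hsq
      linear_combination hsq
    have e2 := (mul_eq_zero.1 e).resolve_left h4
    rcases mul_eq_zero.1 e2 with e3 | e3
    · exact hcast i (by omega) (by omega) e3
    · have := hcast (i - 1) (by omega) (by omega)
      rw [Nat.cast_sub (by omega)] at this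
      exact this (by simpa using e3)
  · have e : (4 : ZMod p) * ((i : ZMod p) * ((i : ZMod p) + 2)) = 0 := by
      push_cast at hsq
      linear_combination hsq
    have e2 := (mul_eq_zero.1 e).resolve_left h4
    rcases mul_eq_zero.1 e2 with e3 | e3
    · exact hcast i (by omega) (by omega) e3
    · have := hcast (i + 2) (by omega) (by omega)
      push_cast at this
      exact this e3
  · exact h7 ⟨_, by rw [← sq, hsq]; push_cast; norm_num⟩
  · exact h10 ⟨_, by rw [← sq, hsq]; push_cast; norm_num⟩
  · exact h13 ⟨_, by rw [← sq, hsq]; push_cast; norm_num⟩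

/-- Every sequence of length `n (2n - 1) + 1` has a 2-zero subsequence, so `D n` is the minimum of a
nonempty set. -/
theorem D_nonempty (n : ℕ) (hn : 0 < n) :
    {ℓ : ℕ | 0 < ℓ ∧ ∀ S : Multiset (ZMod n), S.card = ℓ →
      ∃ T ≤ S, 2 ≤ T.card ∧ T.esymm 2 = 0}.Nonempty := by
  classical
  have : NeZero n := ⟨hn.ne'⟩
  refine ⟨n * (2 * n) + 1, by omega, fun S hS => ?_⟩
  have : ∃ a : ZMod n, 2 * n ≤ S.count a := by
    by_contra hcon
    push Not at hcon
    have h1 : S.card = ∑ a : ZMod n, S.count a := by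
      rw [← Multiset.toFinset_sum_count_eq]
      apply Finset.sum_subset (Finset.subset_univ _)
      intro a _ ha
      rw [Multiset.count_eq_zero]
      simpa using ha
    have h2 : ∑ a : ZMod n, S.count a ≤ ∑ _a : ZMod n, (2 * n) :=
      Finset.sum_le_sum fun a _ => (hcon a).le
    rw [Finset.sum_const, Finset.card_univ, ZMod.card, smul_eq_mul] at h2
    omega
  obtain ⟨a, ha⟩ := this
  refine ⟨replicate (2 * n) a, Multiset.le_count_iff_replicate_le.1 ha, by
    rw [card_replicate]; omega, ?_⟩
  have hgen : ∀ k : ℕ, (replicate k a).esymm 2 = (k.choose 2 : ℕ) * a ^ 2 := by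
    intro k
    induction k with
    | zero =>
      have h0 : powersetCard 2 (0 : Multiset (ZMod n)) = 0 := rfl
      simp [Multiset.esymm, h0]
    | succ k ih =>
      rw [replicate_succ, esymm_cons, ih, sum_replicate, Nat.choose_succ_succ' k 1,
        Nat.choose_one_right]
      push_cast
      rw [nsmul_eq_mul]
      ring
  rw [hgen, Nat.choose_two_right]
  have e : 2 * n * (2 * n - 1) / 2 = n * (2 * n - 1) := by
    rw [mul_assoc, Nat.mul_div_cancel_left _ (by norm_num)]
  rw [e]
  push_cast
  rw [ZMod.natCast_self]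
  ring

theorem free_mono {n : ℕ} {S S' : Multiset (ZMod n)} (h : S' ≤ S) (hS : Free n S) : Free n S' :=
  fun T hT hc => hS T (hT.trans h) hc

/-- A 2-zero free sequence of length `ℓ` forces `D n ≥ ℓ + 1`. -/
theorem lt_D {n : ℕ} (hn : 0 < n) {S : Multiset (ZMod n)} (hS : Free n S) : S.card < D n := by
  have hmem := Nat.sInf_mem (D_nonempty n hn)
  by_contra hle
  push Not at hle
  change D n ∈ _ at hmem
  obtain ⟨S', hS', hc⟩ : ∃ S' ≤ S, S'.card = D n := by
    have hpos : 0 < (powersetCard (D n) S).card := by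
      rw [card_powersetCard]
      exact Nat.choose_pos hle
    obtain ⟨S', h'⟩ := card_pos_iff_exists_mem.1 hpos
    exact ⟨S', mem_powersetCard.1 h'⟩
  obtain ⟨T, hT, h2, h0⟩ := hmem.2 S' hc
  exact hS T (hT.trans hS') h2 h0

end Pool.Agent.X9.DV
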